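import Pool.Agent.H7.HD.Targets11
import Pool.Agent.H7.HD.Clo

/-! DN of hd7_modules: the Mitchell rank of the members of a sequence of measures. -/

open Ordinal Cardinal Order Set
open scoped ZFSet

universe u

namespace Pool.Agent.H64.HDA.DN

open HD

/-! ## Unfolding of `MGe` -/

theorem mge_iff (κ ξ : Ordinal.{u}) (U : ZFSet.{u}) :
    MGe κ ξ U ↔ HMeas κ U ∧ ∀ ζ < ξ, ∃ W, MGe κ ζ W ∧ MLt κ W U := by
  rw [MGe]
  refine and_congr_right fun _ => ⟨fun h ζ hζ => h ⟨ζ, hζ⟩, fun h ζ => h ζ.1 ζ.2⟩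

theorem mge_zero (κ : Ordinal.{u}) (U : ZFSet.{u}) : MGe κ 0 U ↔ HMeas κ U := by
  rw [mge_iff]
  refine ⟨fun h => h.1, fun h => ⟨h, fun ζ hζ => absurd hζ (not_lt.2 zero_le)⟩⟩

theorem mge_mono {κ ξ ξ' : Ordinal.{u}} {U : ZFSet.{u}} (h : MGe κ ξ U) (hξ : ξ' ≤ ξ) :
    MGe κ ξ' U := by
  rw [mge_iff] at h ⊢
  exact ⟨h.1, fun ζ hζ => h.2 ζ (hζ.trans_le hξ)⟩

theorem mge_succ (κ ξ : Ordinal.{u}) (U : ZFSet.{u}) :
    MGe κ (succ ξ) U ↔ HMeas κ U ∧ ∃ W, MGe κ ξ W ∧ MLt κ W U := by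
  rw [mge_iff]
  refine and_congr_right fun _ => ⟨fun h => h ξ (lt_succ ξ), fun h ζ hζ => ?_⟩
  obtain ⟨W, h1, h2⟩ := h
  exact ⟨W, mge_mono h1 (lt_succ_iff.1 hζ), h2⟩

/-! ## Measures -/

theorem ds_empty : DS (∅ : Set Ordinal.{u}) := (DO.cst False).congr fun w => by simp

theorem ds_compl {X : Set Ordinal.{u}} (hX : DS X) : DS Xᶜ := hX.not

theorem ds_inter {X Y : Set Ordinal.{u}} (hX : DS X) (hY : DS Y) : DS (X ∩ Y) := hX.and hY

theorem nm_not {κ : Ordinal.{u}} {W : ZFSet.{u}} (h : NMe κ W) {X : Set Ordinal.{u}}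
    (hX : DS X) (hn : os κ X ∉ W) : os κ Xᶜ ∈ W := by
  by_contra hc
  exact hn ((h.ult X hX).2 hc)

theorem nm_ne {κ : Ordinal.{u}} {W : ZFSet.{u}} (h : NMe κ W) {X : Set Ordinal.{u}}
    (hX : DS X) (hx : os κ X ∈ W) : ∃ b < κ, b ∈ X := by
  by_contra hc
  push Not at hc
  have h1 : os κ ∅ ∈ W := h.up X ∅ hX ds_empty hx fun b hb hb' => absurd hb' (hc b hb)
  have h2 := (h.ult ∅ ds_empty).1 h1
  refine h2 (h.up X _ hX (ds_compl ds_empty) hx fun b _ _ => by simp)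

theorem nm_ext {en : Ordinal.{u} → ZFSet.{u}} (hen : EN en) {b : Ordinal.{u}}
    {W₁ W₂ : ZFSet.{u}} (h₁ : NMe b W₁) (h₂ : NMe b W₂)
    (h : ∀ e, (os b (E en e) ∈ W₁ ↔ os b (E en e) ∈ W₂)) : W₁ = W₂ := by
  have key : ∀ W, NMe b W → ∀ x ∈ W, ∃ e, os b (E en e) = x := by
    intro W hW x hx
    have h3 : OD x := (hW.hod.mem hx).self
    obtain ⟨e, he⟩ := (hen.od x).1 h3
    refine ⟨e, ?_⟩
    ext z
    rw [mem_os]
    constructor
    · rintro ⟨a, -, ha, rfl⟩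
      have : a.toZFSet ∈ en e := ha
      rwa [he] at this
    · intro hz
      obtain ⟨a, ha, rfl⟩ := mem_toZFSet_iff.1 (hW.sub x hx hz)
      refine ⟨a, ha, ?_, rfl⟩
      show a.toZFSet ∈ en e
      rwa [he]
  ext x
  constructor
  · intro hx
    obtain ⟨e, rfl⟩ := key W₁ h₁ x hx
    exact (h e).1 hx
  · intro hx
    obtain ⟨e, rfl⟩ := key W₂ h₂ x hx
    exact (h e).2 hx

/-! ## Definability -/

theorem doMem {en : Ordinal.{u} → ZFSet.{u}} (hen : EN en)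
    {X : Ordinal.{u} → (ℕ → Ordinal.{u}) → Prop}
    (hX : DO fun w => X (w 0) (fun n => w (n + 1))) (i j : ℕ) :
    DO fun w => os (w i) {a | X a w} ∈ en (w j) := by
  have h1 : DZ.{u} fun v => ∃ y, ((v (j + 1)).IsOrdinal ∧ y = en (v (j + 1)).rank) ∧ v 0 ∈ y := by
    refine DZ.ex (R := fun y v => ((v (j + 1)).IsOrdinal ∧ y = en (v (j + 1)).rank) ∧ v 0 ∈ y)
      (DZ.and ?_ (DZ.mem 1 0))
    exact hen.dz.ren (fun n => if n = 0 then j + 2 else 0)
  have h2 := DO.setArg (R := fun s v => ∃ y, ((v j).IsOrdinal ∧ y = en (v j).rank) ∧ s ∈ y)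
    h1 hX i
  refine h2.congr fun w => ?_
  have e1 : (ov w j).rank = w j := rank_toZFSet _
  rw [e1]
  constructor
  · intro h
    exact ⟨_, ⟨ZFSet.isOrdinal_toZFSet _, rfl⟩, h⟩
  · rintro ⟨y, ⟨-, rfl⟩, h⟩
    exact h

theorem do_sInf {S : Ordinal.{u} → (ℕ → Ordinal.{u}) → Prop}
    (hS : DO fun w => S (w 0) (fun n => w (n + 1))) (i : ℕ) :
    DO fun w => w i = sInf {z | S z w} := by
  have h1 : DO fun w => ∃ z, z = w i ∧ S z w :=
    DO.ex (R := fun z w => z = w i ∧ S z w) ((DO.eq 0 (i + 1)).and hS)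
  have h2 : DO fun w => ∀ z < w i, ¬ S z w :=
    DO.allLt (R := fun z w => ¬ S z w) i hS.not
  have h3 : DO fun w => ∀ z, ¬ S z w := DO.all (R := fun z w => ¬ S z w) hS.not
  refine ((h1.and h2).or (h3.and (DO.eqc i 0))).congr fun w => ?_
  constructor
  · intro h
    by_cases hne : ({z | S z w}).Nonempty
    · refine Or.inl ⟨⟨_, rfl, ?_⟩, fun z hz hs => ?_⟩
      · rw [h]
        exact csInf_mem hne
      · rw [h] at hz
        exact absurd (csInf_le' (s := {z | S z w}) hs) (not_le.2 hz)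
    · refine Or.inr ⟨fun z hz => hne ⟨z, hz⟩, ?_⟩
      rw [h, Set.not_nonempty_iff_eq_empty.1 hne, Ordinal.sInf_empty]
  · rintro (⟨⟨z, rfl, hz⟩, hmin⟩ | ⟨hn, h0⟩)
    · refine le_antisymm ?_ (csInf_le' hz)
      by_contra hlt
      push Not at hlt
      exact hmin _ hlt (csInf_mem (s := {z | S z w}) ⟨_, hz⟩)
    · have : {z | S z w} = ∅ := Set.eq_empty_iff_forall_notMem.2 fun z hz => hn z hz
      rw [this, Ordinal.sInf_empty, h0]

theorem do_succ (i j : ℕ) : DO.{u} fun w => w i = succ (w j) := by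
  have h1 : DO.{u} fun w => w j < w i ∧ ∀ z < w i, z ≤ w j :=
    (DO.lt j i).and (DO.allLt (R := fun z w => z ≤ w j) i (DO.le 0 (j + 1)))
  refine h1.congr fun w => ?_
  constructor
  · intro h
    rw [h]
    exact ⟨lt_succ _, fun z hz => lt_succ_iff.1 hz⟩
  · rintro ⟨h, h'⟩
    refine le_antisymm ?_ (succ_le_of_lt h)
    by_contra hlt
    push Not at hlt
    exact absurd (h' _ hlt) (not_le.2 (lt_succ _))

section

variable {en : Ordinal.{u} → ZFSet.{u}}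

theorem do_nm (hHMI : T_HMI.{u}) (hDG : DO fun w => MGe (w 0) (w 1) (en (w 2))) (i j : ℕ) :
    DO fun w => NMe (w i) (en (w j)) := by
  have h1 : DO fun w => ∃ z, z = 0 ∧ MGe (w i) z (en (w j)) :=
    DO.ex (R := fun z w => z = 0 ∧ MGe (w i) z (en (w j))) ((DO.eqc 0 0).and
      (DO.s3 (X := fun a b c => MGe a b (en c)) hDG (i + 1) 0 (j + 1)))
  refine h1.congr fun w => ?_
  rw [← hHMI, ← mge_zero]
  constructor
  · intro h
    exact ⟨0, rfl, h⟩
  · rintro ⟨z, rfl, h⟩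
    exact h

theorem ds_nm (hHMI : T_HMI.{u}) (hDG : DO fun w => MGe (w 0) (w 1) (en (w 2)))
    {c : Ordinal.{u} → Ordinal.{u}} (hc : DR fun a b => b = c a) :
    DS {b | NMe b (en (c b))} := by
  have h1 : DO fun w => ∃ d, d = c (w 0) ∧ NMe (w 0) (en d) :=
    DO.ex (R := fun d w => d = c (w 0) ∧ NMe (w 0) (en d))
      ((DO.s2 (X := fun a b => b = c a) hc 1 0).and (do_nm hHMI hDG 1 0))
  exact h1.congr fun w => by simp

theorem ds_mem (hen : EN en) {c : Ordinal.{u} → Ordinal.{u}} (hc : DR fun a b => b = c a)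
    {X : Set Ordinal.{u}} (hX : DS X) : DS {x | os x X ∈ en (c x)} := by
  have h1 : DO fun w => ∃ d, d = c (w 0) ∧ os (w 0) {a | a ∈ X} ∈ en d :=
    DO.ex (R := fun d w => d = c (w 0) ∧ os (w 0) {a | a ∈ X} ∈ en d)
      ((DO.s2 (X := fun a b => b = c a) hc 1 0).and
        (doMem hen (X := fun a _ => a ∈ X) (hX.s1 0) 1 0))
  exact h1.congr fun w => by simp

/-- `d` is the code of the limit of the measures `en (c' x)` along `en (c b)` -/
def KK (en : Ordinal.{u} → ZFSet.{u}) (c c' : Ordinal.{u} → Ordinal.{u}) (d b : Ordinal.{u}) :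
    Prop :=
  NMe b (en d) ∧ ∀ e, (os b (E en e) ∈ en d ↔ os b {x | os x (E en e) ∈ en (c' x)} ∈ en (c b))

theorem do_KK (hHMI : T_HMI.{u}) (hen : EN en) (hDG : DO fun w => MGe (w 0) (w 1) (en (w 2)))
    {c c' : Ordinal.{u} → Ordinal.{u}} (hc : DR fun a b => b = c a)
    (hc' : DR fun a b => b = c' a) : DO fun w => KK en c c' (w 0) (w 1) := by
  have hE : DO fun w => w 0 ∈ E en (w 1) := (t_EA en hen).1
  have h1 : DO fun w => os (w 2) (E en (w 0)) ∈ en (w 1) :=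
    doMem hen (X := fun a w => a ∈ E en (w 0))
      (DO.s2 (X := fun a b => a ∈ E en b) hE 0 1) 2 1
  have h2 : DO fun w => ∃ z, z = c' (w 0) ∧ os (w 0) (E en (w 2)) ∈ en z :=
    DO.ex (R := fun z w => z = c' (w 0) ∧ os (w 0) (E en (w 2)) ∈ en z)
      ((DO.s2 (X := fun a b => b = c' a) hc' 1 0).and
        (doMem hen (X := fun a w => a ∈ E en (w 3))
          (DO.s2 (X := fun a b => a ∈ E en b) hE 0 4) 1 0))
  have h3 : DO fun w => ∃ y, y = c (w 2) ∧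
      os (w 2) {x | ∃ z, z = c' x ∧ os x (E en (w 0)) ∈ en z} ∈ en y := by
    refine DO.ex (R := fun y w => y = c (w 2) ∧
      os (w 2) {x | ∃ z, z = c' x ∧ os x (E en (w 0)) ∈ en z} ∈ en y)
      ((DO.s2 (X := fun a b => b = c a) hc 3 0).and ?_)
    exact doMem hen (X := fun x w => ∃ z, z = c' x ∧ os x (E en (w 1)) ∈ en z) h2 3 0
  have h4 : DO fun w => ∀ e, (os (w 1) (E en e) ∈ en (w 0) ↔ ∃ y, y = c (w 1) ∧
      os (w 1) {x | ∃ z, z = c' x ∧ os x (E en e) ∈ en z} ∈ en y) :=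
    DO.all (R := fun e w => os (w 1) (E en e) ∈ en (w 0) ↔ ∃ y, y = c (w 1) ∧
      os (w 1) {x | ∃ z, z = c' x ∧ os x (E en e) ∈ en z} ∈ en y) (h1.iff h3)
  refine ((do_nm hHMI hDG 1 0).and h4).congr fun w => ?_
  unfold KK
  simp only [exists_eq_left]

end

/-! ## The theorem -/

theorem X (hHMI : T_HMI.{u}) (hLI : T_LI.{u}) (hMLC : T_MLC.{u}) (hDG : T_DG.{u})
    (hRK : T_RK.{u}) : T_DN.{u} := by
  intro en hen π hπ a
  have hD := hDG en hen
  obtain ⟨hR1, hR2, -⟩ := hRK π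
  obtain ⟨hRD, -⟩ := hR2 hπ
  induction a using WellFoundedLT.induction with
  | ind a ih =>
  intro κ c U U' hc hU hM hU' hge
  -- definability of `{b | MGe b (Rk π b x) (en (c b))}`
  have hN : ∀ (x : Ordinal.{u}) (k : Ordinal.{u} → Ordinal.{u}), (DR fun a b => b = k a) →
      DS {b | MGe b (Rk π b x) (en (k b))} := by
    intro x k hk
    have h1 : DO fun w => ∃ d, d = k (w 0) ∧ ∃ y, y = x ∧ ∃ z, z = Rk π (w 0) y ∧
        MGe (w 0) z (en d) := by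
      refine DO.ex (R := fun d w => d = k (w 0) ∧ ∃ y, y = x ∧ ∃ z, z = Rk π (w 0) y ∧
        MGe (w 0) z (en d)) ((DO.s2 (X := fun a b => b = k a) hk 1 0).and ?_)
      refine DO.ex (R := fun y w => y = x ∧ ∃ z, z = Rk π (w 1) y ∧ MGe (w 1) z (en (w 0)))
        ((DO.eqc 0 x).and ?_)
      refine DO.ex (R := fun z w => z = Rk π (w 2) (w 0) ∧ MGe (w 2) z (en (w 1)))
        (DO.and ?_ ?_)
      · exact DO.s3 (X := fun a b c => c = Rk π a b) hRD 3 1 0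
      · exact DO.s3 (X := fun a b c => MGe a b (en c)) hD 3 0 2
    exact h1.congr fun w => by simp
  -- the relation `A j b`
  let A : Ordinal.{u} → Ordinal.{u} → Prop := fun j b =>
    j < b ∧ π j < a ∧ ¬ MGe b (succ (Rk π b (π j))) (en (c b))
  have hA : DR A := by
    have h1 : DO fun w => ∃ p, p = π (w 0) ∧ p < a := by
      refine DO.ex (R := fun p w => p = π (w 0) ∧ p < a)
        ((DO.s2 (X := fun a b => b = π a) hπ 1 0).and (DO.ltc 0 a))
    have h2 : DO fun w => ∃ p, p = π (w 0) ∧ ∃ r, r = Rk π (w 1) p ∧ ∃ s, s = succ r ∧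
        ∃ d, d = c (w 1) ∧ MGe (w 1) s (en d) := by
      refine DO.ex (R := fun p w => p = π (w 0) ∧ ∃ r, r = Rk π (w 1) p ∧ ∃ s, s = succ r ∧
        ∃ d, d = c (w 1) ∧ MGe (w 1) s (en d))
        ((DO.s2 (X := fun a b => b = π a) hπ 1 0).and ?_)
      refine DO.ex (R := fun r w => r = Rk π (w 2) (w 0) ∧ ∃ s, s = succ r ∧
        ∃ d, d = c (w 2) ∧ MGe (w 2) s (en d))
        ((DO.s3 (X := fun a b c => c = Rk π a b) hRD 3 1 0).and ?_)
      refine DO.ex (R := fun s w => s = succ (w 0) ∧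
        ∃ d, d = c (w 3) ∧ MGe (w 3) s (en d)) ((do_succ 0 1).and ?_)
      refine DO.ex (R := fun d w => d = c (w 4) ∧ MGe (w 4) (w 0) (en d))
        ((DO.s2 (X := fun a b => b = c a) hc 5 0).and ?_)
      exact DO.s3 (X := fun a b c => MGe a b (en c)) hD 5 1 0
    refine ((DO.lt 0 1).and (h1.and h2.not)).congr fun w => ?_
    simp only [A, exists_eq_left]
  let Lj : Ordinal.{u} → Ordinal.{u} → Prop := fun j b => A j b ∧ ∀ i < j, ¬ A i b
  have hL : DR Lj := by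
    refine DO.and hA (DO.allLt (R := fun i w => ¬ A i (w 1)) 0 ?_)
    exact (DO.s2 (X := A) hA 0 2).not
  have hMs : DS {b | NMe b (en (c b))} := ds_nm hHMI hD hc
  by_contra hcon
  have h1 := nm_not hU (hN a c hc) hcon
  have h2 := hU.int _ _ hMs (ds_compl (hN a c hc)) hM h1
  -- every such `b` has an `L`
  have h3 : ∀ b, b ∈ {b | NMe b (en (c b))} ∩ {b | MGe b (Rk π b a) (en (c b))}ᶜ →
      ∃ j < b, Lj j b := by
    rintro b ⟨hb1, hb2⟩
    have hb3 : ¬ MGe b (Rk π b a) (en (c b)) := hb2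
    have hb4 : HMeas b (en (c b)) := (hHMI b _).2 hb1
    have hex : ∃ j, A j b := by
      rw [mge_iff] at hb3
      push Not at hb3
      obtain ⟨ζ, hζ, hζ'⟩ := hb3 hb4
      obtain ⟨j, hj, hja, rfl⟩ := (hR1 b a ζ).1 hζ
      refine ⟨j, hj, hja, fun hm => ?_⟩
      obtain ⟨-, W, h5, h6⟩ := (mge_succ _ _ _).1 hm
      exact hζ' W h5 h6
    have hmem := csInf_mem (s := {j | A j b}) hex
    refine ⟨sInf {j | A j b}, hmem.1, hmem, fun i hi hAi => ?_⟩
    exact absurd (csInf_le' (s := {j | A j b}) hAi) (not_le.2 hi)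
  -- one value
  obtain ⟨j0, hj0, hj0U⟩ : ∃ j0 < κ, os κ {b | Lj j0 b} ∈ U := by
    by_contra hno
    push Not at hno
    have h4 := hU.nrm (fun j b => ¬ Lj j b) hL.not fun j hj =>
      nm_not hU (DO.sect1 hL j) (hno j hj)
    have hds : DS {b | ∀ j < b, ¬ Lj j b} :=
      DO.allLt (R := fun j w => ¬ Lj j (w 0)) 0 (DO.s2 (X := Lj) hL 0 1).not
    have h5 := hU.int _ _ (ds_inter hMs (ds_compl (hN a c hc))) hds h2 h4
    obtain ⟨b, -, hb1, hb2⟩ := nm_ne hU (ds_inter (ds_inter hMs (ds_compl (hN a c hc))) hds) h5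
    obtain ⟨j, hj, hjb⟩ := h3 b hb1
    exact hb2 j hj hjb
  have hLs : DS {b | Lj j0 b} := DO.sect1 hL j0
  obtain ⟨b0, -, hb0⟩ := nm_ne hU hLs hj0U
  have hπa : π j0 < a := hb0.1.2.1
  -- the measure `U''`
  have hge' := (mge_iff _ _ _).1 hge
  obtain ⟨U'', hU1, hU2⟩ := hge'.2 (Rk π κ (π j0)) ((hR1 κ a _).2 ⟨j0, hj0, hπa, rfl⟩)
  have hNU' : NMe κ U' := (hHMI κ U').1 hge'.1
  obtain ⟨c', hc', hc1, hc2⟩ := hMLC en hen κ U'' U' hNU' hU2
  have hMs' : DS {b | NMe b (en (c' b))} := ds_nm hHMI hD hc'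
  have h6 : os κ {b | os b {x | NMe x (en (c' x))} ∈ en (c b)} ∈ U := (hU' _ hMs').1 hc1
  have hds6 : DS {b | os b {x | NMe x (en (c' x))} ∈ en (c b)} := ds_mem hen hc hMs'
  -- the codes `k b`
  have hKK := do_KK hHMI hen hD hc hc'
  let k : Ordinal.{u} → Ordinal.{u} := fun b => sInf {d | KK en c c' d b}
  have hk : DR fun a b => b = k a := by
    have := do_sInf (S := fun z w => KK en c c' z (w 0)) hKK 1
    exact this
  -- properties of `k`
  have hkey : ∀ b, NMe b (en (c b)) → os b {x | NMe x (en (c' x))} ∈ en (c b) →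
      NMe b (en (k b)) ∧ MLt b (en (k b)) (en (c b)) ∧
      ∀ Y : Set Ordinal.{u}, DS Y →
        (os b Y ∈ en (k b) ↔ os b {x | os x Y ∈ en (c' x)} ∈ en (c b)) := by
    intro b hb hb'
    obtain ⟨h7, h8, h9⟩ := hLI en hen c' hc' b (en (c b)) hb hb'
    have hE : ∀ e, DS (E en e) := fun e => OD.ds ((hen.od _).2 ⟨e, rfl⟩)
    obtain ⟨d, hd⟩ := (hen.od _).1 h7.hod.od
    have hKd : KK en c c' d b := by
      unfold KK
      rw [hd]
      exact ⟨h7, fun e => h9 _ (hE e)⟩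
    have hKk : KK en c c' (k b) b := csInf_mem (s := {d | KK en c c' d b}) ⟨d, hKd⟩
    have heq : en (k b) = lmz en c' b (en (c b)) :=
      nm_ext hen hKk.1 h7 fun e => (hKk.2 e).trans (h9 _ (hE e)).symm
    rw [heq]
    exact ⟨h7, h8, h9⟩
  have hS : os κ ({b | NMe b (en (c b))} ∩ {b | os b {x | NMe x (en (c' x))} ∈ en (c b)}) ∈ U :=
    hU.int _ _ hMs hds6 hM h6
  have hSd := ds_inter hMs hds6
  have hMk : DS {b | NMe b (en (k b))} := ds_nm hHMI hD hk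
  have h10 : os κ {b | NMe b (en (k b))} ∈ U :=
    hU.up _ _ hSd hMk hS fun b _ hb => (hkey b hb.1 hb.2).1
  have h11 : ∀ Y : Set Ordinal.{u}, DS Y →
      (os κ Y ∈ U'' ↔ os κ {b | os b Y ∈ en (k b)} ∈ U) := by
    intro Y hY
    have hd1 : DS {x | os x Y ∈ en (c' x)} := ds_mem hen hc' hY
    have hd2 : DS {b | os b {x | os x Y ∈ en (c' x)} ∈ en (c b)} := ds_mem hen hc hd1
    have hd3 : DS {b | os b Y ∈ en (k b)} := ds_mem hen hk hY
    rw [hc2 Y hY, hU' _ hd1]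
    constructor
    · intro h
      exact hU.up _ _ (ds_inter hSd hd2) hd3 (hU.int _ _ hSd hd2 hS h) fun b _ hb =>
        ((hkey b hb.1.1 hb.1.2).2.2 Y hY).2 hb.2
    · intro h
      exact hU.up _ _ (ds_inter hSd hd3) hd2 (hU.int _ _ hSd hd3 hS h) fun b _ hb =>
        ((hkey b hb.1.1 hb.1.2).2.2 Y hY).1 hb.2
  have h12 := ih (π j0) hπa κ k U U'' hk hU h10 h11 hU1
  have hN2 := hN (π j0) k hk
  have h13 := hU.int _ _ (ds_inter hSd hLs) hN2 (hU.int _ _ hSd hLs hS hj0U) h12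
  obtain ⟨b, -, ⟨hbS, hbL⟩, hbN⟩ := nm_ne hU (ds_inter (ds_inter hSd hLs) hN2) h13
  have h14 := hkey b hbS.1 hbS.2
  exact hbL.1.2.2 ((mge_succ _ _ _).2 ⟨(hHMI b _).2 hbS.1, _, hbN, h14.2.1⟩)

end Pool.Agent.H64.HDA.DN
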