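import Pool.Agent.H7.HD.Targets11
import Pool.Agent.H65.HD.CB

/-! NR of hd7_modules: reflection of null sets. -/

open Ordinal Cardinal Order Set
open scoped ZFSet

universe u

namespace Pool.Agent.H64.HDA.NR

open HD

theorem X : T_NR.{u} := by
  intro K hK hK0 X hX
  unfold Pos at hX
  push Not at hX
  obtain ⟨B, hB, hBX⟩ := hX
  have hex : ∀ x : Ordinal.{u}, ∃ y, x < K.ord → y < K.ord ∧ x < y ∧ y ∈ B := by
    intro x
    by_cases hx : x < K.ord
    · obtain ⟨b, h1, h2, h3⟩ := hB.unb x hx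
      exact ⟨b, fun _ => ⟨h1, h2, h3⟩⟩
    · exact ⟨0, fun h => absurd h hx⟩
  choose G hG using hex
  refine ⟨_, Pool.Agent.H65.HD.CB.cb K hK hK0 (fun x _ => G x) (fun x hx _ _ => (hG x hx).1),
    fun ν hν hνK hcof hpos => ?_⟩
  have hcl : Clb ν B := by
    refine ⟨fun a ha => ?_, fun x hx h0 h => ?_⟩
    · obtain ⟨h1, h2, h3⟩ := hG a (ha.trans hνK)
      exact ⟨G a, hν.2 a ha a ha, h2, h3⟩
    · exact hB.cls x (hx.trans hνK) h0 h
  obtain ⟨b, hb, h1, h2, h3⟩ := hpos B hcl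
  exact hBX b (hb.trans hνK) h1 h2 h3

end Pool.Agent.H64.HDA.NR
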